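import Pool.Agent.Q123.PR.TrA
import Pool.Agent.Q214.PR.SmA
import Pool.Agent.Q286.PG.Stm

/-!
# Project PRG (helper286), job TRX: trial functions for a general L-function
-/

set_option autoImplicit false
set_option maxHeartbeats 2000000

open Complex Filter Topology Set MeasureTheory
open scoped ComplexConjugate

namespace Pool.Agent.Q176.PG.TrX

open Pool.Agent.Y23 (TT Fa)
open Pool.Agent.Y23.G (Zt mu GG QQ cc zsummable half_re rfZ rfZ_sub X_all cut conv_TT tau_lim exists_eta' cc_pos Xd)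
open Pool.Agent.Y23.G.F (Hn ek nd)
open Pool.Agent.Q123.PR (Fn Fn_Hn tail_bound K0 K0_nonneg norm_nd)
open Pool.Agent.Q240.PR (Sm)
open Pool.Agent.Q286.PG

/-- the form is small if the transform is small at the zeros -/
theorem QQ_small [D : Pool.Agent.Y23.G.ZD] {f : ℝ → ℂ} {s : ℝ} (hs : 0 ≤ s)
    (h : ∀ ρ : Zt, ‖TT f ((ρ : ℂ) - 1 / 2)‖ ≤ s / (1 + ‖(ρ : ℂ) - 1 / 2‖) ^ 2 ∧
      ‖TT f (-conj ((ρ : ℂ) - 1 / 2))‖ ≤ s / (1 + ‖(ρ : ℂ) - 1 / 2‖) ^ 2) :
    |QQ f| ≤ s ^ 2 * ∑' ρ : Zt, (mu ρ : ℝ) * (1 / (1 + ((ρ : ℂ).im - 0) ^ 2)) := by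
  unfold QQ
  have hb : ∀ ρ : Zt, ‖(mu ρ : ℝ) * (GG f f ((ρ : ℂ) - 1 / 2)).re‖ ≤ s ^ 2 * ((mu ρ : ℝ) * (1 / (1 + ((ρ : ℂ).im - 0) ^ 2))) := by
    intro ρ
    obtain ⟨h1, h2⟩ := h ρ
    set w := (ρ : ℂ) - 1 / 2 with hw
    have hwim : w.im = (ρ : ℂ).im := by
      rw [hw]
      simp
    have hm : (0 : ℝ) ≤ mu ρ := Nat.cast_nonneg _
    rw [norm_mul, Real.norm_eq_abs, abs_of_nonneg hm, mul_left_comm]
    refine mul_le_mul_of_nonneg_left ?_ hm
    rw [Real.norm_eq_abs]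
    refine (Complex.abs_re_le_norm _).trans ?_
    unfold GG
    rw [norm_mul, RCLike.norm_conj]
    have hw0 : 0 ≤ ‖w‖ := norm_nonneg _
    calc ‖TT f w‖ * ‖TT f (-conj w)‖ ≤ (s / (1 + ‖w‖) ^ 2) * (s / (1 + ‖w‖) ^ 2) :=
          mul_le_mul h1 h2 (norm_nonneg _) (by positivity)
      _ = s ^ 2 * (1 / (1 + ‖w‖) ^ 4) := by
          field_simp
      _ ≤ s ^ 2 * (1 / (1 + ((ρ : ℂ).im - 0) ^ 2)) := by
          refine mul_le_mul_of_nonneg_left ?_ (by positivity)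
          refine one_div_le_one_div_of_le (by positivity) ?_
          rw [sub_zero, ← hwim]
          have h3 : |w.im| ≤ ‖w‖ := Complex.abs_im_le_norm w
          have h4 : (1 + |w.im|) ^ 4 ≤ (1 + ‖w‖) ^ 4 := pow_le_pow_left₀ (by positivity) (by linarith) 4
          have h5 : 1 + w.im ^ 2 ≤ (1 + |w.im|) ^ 4 := by
            rw [← sq_abs w.im]
            have h6 : 0 ≤ |w.im| := abs_nonneg _
            have h7 : (1 + |w.im|) ^ 2 ≤ (1 + |w.im|) ^ 4 := pow_le_pow_right₀ (by linarith) (by norm_num)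
            nlinarith
          exact h5.trans h4
  have hsum := (zsummable 0).mul_left (s ^ 2)
  rw [← Real.norm_eq_abs, ← tsum_mul_left]
  exact tsum_of_norm_bounded hsum.hasSum hb

theorem neg_conj_norm (w : ℂ) : ‖-conj w‖ = ‖w‖ := by
  rw [norm_neg, RCLike.norm_conj]

theorem sq_exp (a : ℝ) (ha : 0 ≤ a) : a ^ 2 * Real.exp a ≤ 2 * Real.exp (2 * (1 + a)) := by
  have h1 : a ^ 2 / 2 ≤ Real.exp a := by
    have := Real.pow_div_factorial_le_exp a ha 2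
    simpa using this
  have h2 : Real.exp (2 * (1 + a)) = Real.exp a * Real.exp a * Real.exp 2 := by
    rw [← Real.exp_add, ← Real.exp_add]
    congr 1
    ring
  have h3 : 1 ≤ Real.exp 2 := Real.one_le_exp (by norm_num)
  have h4 : 0 < Real.exp a := Real.exp_pos a
  rw [h2]
  calc a ^ 2 * Real.exp a ≤ 2 * Real.exp a * Real.exp a := mul_le_mul_of_nonneg_right (by linarith) h4.le
    _ = 2 * (Real.exp a * Real.exp a * 1) := by ring
    _ ≤ _ := by
        refine mul_le_mul_of_nonneg_left ?_ (by norm_num)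
        exact mul_le_mul_of_nonneg_left h3 (by positivity)

section

variable [L : Pool.Agent.Y23.G.LFun]

/-- the small quantity -/
noncomputable def tu (B η a : ℝ) : ℝ := Real.exp (B * (1 + a) - cc * Real.exp (2 * (a - η) / L.m))

theorem tu_pos (B η a : ℝ) : 0 < tu B η a := Real.exp_pos _

/-- one trial function -/
theorem one {η C B CD κ M6 Mb : ℝ} (hη : 0 < η) (hB : 0 ≤ B) (hC : 0 < C)
    (hcut : ∀ b : ℝ, 0 ≤ b → ∃ f : ℝ → ℂ, Fa b f ∧ ∀ w : ℂ, |w.re| ≤ 1 →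
      ‖TT f w - L.X (1 / 2 + w)‖ ≤ C * Real.exp (B * (1 + b) - cc * Real.exp (2 * b / L.m)))
    (hκ : 0 < κ) (hCD : 0 ≤ CD) (hdec : ∀ v : ℝ, ‖L.X (1 / 2 + v * I)‖ ≤ CD * Real.exp (-(κ * |v|)))
    {χ : ℝ → ℂ} (hχF : Fa η χ) (hMb : ∀ x, ‖χ x‖ ≤ Mb) (hM6 : 0 ≤ M6)
    (h6 : ∀ w : ℂ, |w.re| ≤ 1 → ‖TT χ w‖ ≤ M6 / (1 + ‖w‖) ^ 6) (a : ℝ) (ha : 1 ≤ a) (haη : η ≤ a) :
    ∃ g : ℝ → ℂ, ∀ n : ℕ, ⌈(cc / κ + 1) * a * Real.exp (2 * a / L.m)⌉₊ ≤ n → ∀ w : ℂ, |w.re| ≤ 1 →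
      ‖TT (Fn a g n) w - L.X (1 / 2 + w) * TT χ w‖ ≤
        M6 * (32 * K0 * (CD + C) + C) * tu (B + 2) η a / (1 + ‖w‖) ^ 2 := by
  have ha0 : 0 < a := by linarith
  obtain ⟨f, hf, hfb⟩ := hcut (a - η) (by linarith)
  obtain ⟨g, hg, hgT⟩ := conv_TT hf hχF hMb
  rw [sub_add_cancel] at hg
  refine ⟨g, fun n hn w hw => ?_⟩
  obtain ⟨τ, hτ⟩ : ∃ τ, τ = tu B η a := ⟨_, rfl⟩
  have hτ0 : 0 < τ := by
    rw [hτ]
    exact tu_pos _ _ _
  have hfb' : ∀ w : ℂ, |w.re| ≤ 1 → ‖TT f w - L.X (1 / 2 + w)‖ ≤ C * τ := by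
    intro w hw
    refine (hfb w hw).trans (mul_le_mul_of_nonneg_left ?_ hC.le)
    rw [hτ]
    unfold tu
    refine Real.exp_le_exp.2 ?_
    nlinarith
  have hline : ∀ v : ℝ, ‖TT f (v * I)‖ ≤ CD * Real.exp (-(κ * |v|)) + C * τ := by
    intro v
    have h1 := hfb' (v * I) (by simp)
    have h2 : TT f (v * I) = L.X (1 / 2 + v * I) + (TT f (v * I) - L.X (1 / 2 + v * I)) := by ring
    rw [h2]
    exact (norm_add_le _ _).trans (add_le_add (hdec v) h1)
  have h6' : ∀ v : ℝ, ‖TT χ (v * I)‖ ≤ M6 / (1 + |v|) ^ 6 := by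
    intro v
    have h1 := h6 (v * I) (by simp)
    have h2 : ‖(v : ℂ) * I‖ = |v| := by simp
    rwa [h2] at h1
  have hM : ∀ v : ℝ, ‖TT g (v * I)‖ ≤ ((CD + C * τ) * M6) / (1 + |v|) ^ 6 := by
    intro v
    rw [hgT, norm_mul, mul_div_assoc]
    refine mul_le_mul ?_ (h6' v) (norm_nonneg _) (by positivity)
    refine (hline v).trans ?_
    have h1 : Real.exp (-(κ * |v|)) ≤ 1 := by
      rw [Real.exp_le_one_iff]
      have : 0 ≤ κ * |v| := by positivity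
      linarith
    have := mul_le_mul_of_nonneg_left h1 hCD
    linarith
  have hδ : ∀ k : ℤ, n < k.natAbs → ‖TT g (nd a k)‖ ≤ ((CD + C) * τ * M6) / (1 + ‖nd a k‖) ^ 6 := by
    intro k hk
    obtain ⟨v, hv⟩ : ∃ v : ℝ, v = Real.pi * k / a := ⟨_, rfl⟩
    have hnd : nd a k = (v : ℂ) * I := by
      rw [hv]
      rfl
    have hnv : ‖nd a k‖ = |v| := by
      rw [hv]
      exact norm_nd a k
    rw [hnv, hnd, hgT, norm_mul, mul_div_assoc]
    refine mul_le_mul ?_ (h6' v) (norm_nonneg _) (by positivity)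
    refine (hline v).trans ?_
    have hE : 0 < Real.exp (2 * a / L.m) := Real.exp_pos _
    have hcc := cc_pos (L := L)
    have hvl : (cc / κ + 1) * Real.exp (2 * a / L.m) ≤ |v| := by
      have h1 : (cc / κ + 1) * a * Real.exp (2 * a / L.m) ≤ |(k : ℝ)| := by
        have h2 : (cc / κ + 1) * a * Real.exp (2 * a / L.m) ≤ (n : ℝ) := (Nat.le_ceil _).trans (by exact_mod_cast hn)
        have h3 : (n : ℝ) ≤ (k.natAbs : ℝ) := by exact_mod_cast hk.le
        rw [Nat.cast_natAbs, Int.cast_abs] at h3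
        linarith
      rw [hv, abs_div, abs_mul, abs_of_pos Real.pi_pos, abs_of_pos ha0, le_div_iff₀ ha0]
      have hpi := Real.pi_gt_three
      nlinarith [abs_nonneg (k : ℝ)]
    have h1 : Real.exp (-(κ * |v|)) ≤ τ := by
      rw [hτ]
      unfold tu
      refine Real.exp_le_exp.2 ?_
      have h2 := mul_le_mul_of_nonneg_left hvl hκ.le
      have h3 : κ * ((cc / κ + 1) * Real.exp (2 * a / L.m)) = cc * Real.exp (2 * a / L.m) + κ * Real.exp (2 * a / L.m) := by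
        field_simp
      rw [h3] at h2
      have h4 : Real.exp (2 * (a - η) / L.m) ≤ Real.exp (2 * a / L.m) := by
        refine Real.exp_le_exp.2 ?_
        have hm : (0 : ℝ) ≤ L.m := Nat.cast_nonneg _
        exact div_le_div_of_nonneg_right (by linarith) hm
      have h5 := mul_le_mul_of_nonneg_left h4 hcc.le
      have h6 : 0 ≤ κ * Real.exp (2 * a / L.m) := by positivity
      have h7 : 0 ≤ B * (1 + a) := by positivity
      linarith
    have h2 := mul_le_mul_of_nonneg_left h1 hCD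
    linarith
  have htail := tail_bound ha hg (by positivity) hM (by positivity) hδ w
  have hK0 := K0_nonneg
  have hw0 : 0 ≤ ‖w‖ := norm_nonneg w
  have htu : tu (B + 2) η a = Real.exp (2 * (1 + a)) * τ := by
    rw [hτ]
    unfold tu
    rw [← Real.exp_add]
    congr 1
    ring
  have h1 : 16 * K0 * a ^ 2 * ((CD + C) * τ * M6) * Real.exp (a * |w.re|) ≤
      M6 * (32 * K0 * (CD + C)) * tu (B + 2) η a := by
    have h2 : Real.exp (a * |w.re|) ≤ Real.exp a := Real.exp_le_exp.2 (by nlinarith)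
    have h3 := sq_exp a ha0.le
    rw [htu]
    calc 16 * K0 * a ^ 2 * ((CD + C) * τ * M6) * Real.exp (a * |w.re|) ≤
          16 * K0 * a ^ 2 * ((CD + C) * τ * M6) * Real.exp a := mul_le_mul_of_nonneg_left h2 (by positivity)
      _ = 16 * K0 * ((CD + C) * τ * M6) * (a ^ 2 * Real.exp a) := by ring
      _ ≤ 16 * K0 * ((CD + C) * τ * M6) * (2 * Real.exp (2 * (1 + a))) := mul_le_mul_of_nonneg_left h3 (by positivity)
      _ = _ := by ring
  have h2 : ‖(TT f w - L.X (1 / 2 + w)) * TT χ w‖ ≤ M6 * C * tu (B + 2) η a / (1 + ‖w‖) ^ 2 := by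
    rw [norm_mul]
    have h3 := mul_le_mul (hfb' w hw) (h6 w hw) (norm_nonneg _) (by positivity)
    refine h3.trans ?_
    have h4 : 1 ≤ Real.exp (2 * (1 + a)) := Real.one_le_exp (by linarith)
    have h5 : (1 + ‖w‖) ^ 2 ≤ (1 + ‖w‖) ^ 6 := pow_le_pow_right₀ (by linarith) (by norm_num)
    rw [htu]
    calc C * τ * (M6 / (1 + ‖w‖) ^ 6) ≤ C * τ * (M6 / (1 + ‖w‖) ^ 2) :=
          mul_le_mul_of_nonneg_left (div_le_div_of_nonneg_left hM6 (by positivity) h5) (by positivity)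
      _ = (M6 * C * (1 * τ)) / (1 + ‖w‖) ^ 2 := by ring
      _ ≤ (M6 * C * (Real.exp (2 * (1 + a)) * τ)) / (1 + ‖w‖) ^ 2 := by
          refine div_le_div_of_nonneg_right ?_ (by positivity)
          exact mul_le_mul_of_nonneg_left (mul_le_mul_of_nonneg_right h4 hτ0.le) (by positivity)
  have e : TT (Fn a g n) w - L.X (1 / 2 + w) * TT χ w =
      (TT f w - L.X (1 / 2 + w)) * TT χ w - (TT g w - TT (Fn a g n) w) := by
    rw [hgT]
    ring
  rw [e]
  refine (norm_sub_le _ _).trans ?_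
  have h3 : ‖TT g w - TT (Fn a g n) w‖ ≤ M6 * (32 * K0 * (CD + C)) * tu (B + 2) η a / (1 + ‖w‖) ^ 2 :=
    htail.trans (div_le_div_of_nonneg_right h1 (by positivity))
  have h4 : M6 * (32 * K0 * (CD + C) + C) * tu (B + 2) η a / (1 + ‖w‖) ^ 2 =
      M6 * C * tu (B + 2) η a / (1 + ‖w‖) ^ 2 + M6 * (32 * K0 * (CD + C)) * tu (B + 2) η a / (1 + ‖w‖) ^ 2 := by
    ring
  rw [h4]
  exact add_le_add h2 h3

end

theorem trXG (hDec : S_DecG) : S_TrXG := by
  intro L c hc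
  obtain ⟨η, hη, hcη⟩ := exists_eta' (L := L) (c := c / 2) (by linarith)
  obtain ⟨A, hA, hXb⟩ := X_all (L := L)
  obtain ⟨B, C, hB, hC, hcut⟩ := cut (L := L) hA one_pos (H := fun w => L.X (1 / 2 + w)) ((Xd (L := L)).comp (by fun_prop))
    (fun w => by rw [one_mul]; exact hXb w) (R := 1) zero_le_one
  have hD := hDec (L := L)
  obtain ⟨CD, κ, hκ, hdec⟩ := hD.dec
  have hCD : 0 ≤ CD := by
    have h1 := (norm_nonneg _).trans (hdec 0)
    simpa using h1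
  have hcc := cc_pos (L := L)
  refine ⟨η, cc (L := L) / κ + 1, hη, by positivity, fun χ hχ => ?_⟩
  have hχF : Fa η χ := Pool.Agent.Q214.PR.Sm.fa hχ
  obtain ⟨Mb, hMb⟩ := (Pool.Agent.Q214.PR.Sm.hcs hχ).exists_bound_of_continuous (hχ.1 0).continuous
  obtain ⟨M6, hM6, h6⟩ := Pool.Agent.Q214.PR.Sm.decay hη hχ 6
  have hone : ∀ a : ℝ, ∃ g : ℝ → ℂ, 1 ≤ a → η ≤ a → ∀ n : ℕ, ⌈(cc (L := L) / κ + 1) * a * Real.exp (2 * a / L.m)⌉₊ ≤ n →
      ∀ w : ℂ, |w.re| ≤ 1 → ‖TT (Fn a g n) w - L.X (1 / 2 + w) * TT χ w‖ ≤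
        M6 * (32 * K0 * (CD + C) + C) * tu (L := L) (B + 2) η a / (1 + ‖w‖) ^ 2 := by
    intro a
    by_cases h : 1 ≤ a ∧ η ≤ a
    · obtain ⟨g, hg⟩ := one (L := L) hη hB hC hcut hκ hCD hdec hχF hMb hM6 h6 a h.1 h.2
      exact ⟨g, fun _ _ => hg⟩
    · exact ⟨0, fun h1 h2 => absurd ⟨h1, h2⟩ h⟩
  choose g hg using hone
  obtain ⟨Ks, hKs⟩ : ∃ Ks : ℝ, Ks = M6 * (32 * K0 * (CD + C) + C) := ⟨_, rfl⟩
  have hK0 := K0_nonneg
  have hKs0 : 0 ≤ Ks := by
    rw [hKs]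
    positivity
  rw [← hKs] at hg
  obtain ⟨Z, hZ⟩ : ∃ Z : ℝ, Z = ∑' ρ : Zt (D := Pool.Agent.Y23.G.zd), (mu (D := Pool.Agent.Y23.G.zd) ρ : ℝ) *
    (1 / (1 + ((ρ : ℂ).im - 0) ^ 2)) := ⟨_, rfl⟩
  have hZ0 : 0 ≤ Z := by
    rw [hZ]
    exact tsum_nonneg fun ρ => by positivity
  obtain ⟨A1, hA1, hlim1⟩ := tau_lim (L := L) (B := B + 2) (C := Real.sqrt (Ks ^ 2 * Z + 1)) (c := c / 2) (η := η)
    (by linarith) (by positivity) hcη
  obtain ⟨c1, hc1⟩ : ∃ c1 : ℝ, c1 = cc (L := L) * Real.exp (-(2 * η / L.m)) / 2 := ⟨_, rfl⟩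
  have hc10 : 0 < c1 := by
    rw [hc1]
    positivity
  obtain ⟨A2, hA2, hlim2⟩ := tau_lim (L := L) (B := B + 2) (C := Ks + 1) (c := c1) (η := η) (by linarith) (by positivity)
    (by
      rw [hc1]
      have : 0 < cc (L := L) * Real.exp (-(2 * η / L.m)) := by positivity
      linarith)
  obtain ⟨F, hF⟩ : ∃ F : ℝ × ℕ → ℝ → ℂ, F = fun p => Fn p.1 (g p.1) p.2 := ⟨_, rfl⟩
  have hfst : Tendsto (fun p : ℝ × ℕ => p.1) (Lm L.m (cc (L := L) / κ + 1)) atTop := tendsto_comap.mono_left inf_le_left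
  have hsnd : ∀ᶠ p : ℝ × ℕ in Lm L.m (cc (L := L) / κ + 1),
      ⌈(cc (L := L) / κ + 1) * p.1 * Real.exp (2 * p.1 / L.m)⌉₊ ≤ p.2 :=
    mem_inf_of_right (mem_principal_self _)
  -- the main estimate
  have hmain : ∀ᶠ p : ℝ × ℕ in Lm L.m (cc (L := L) / κ + 1), Hn p.1 (p.2 : ℕ∞) (F p) ∧
      (Ks ^ 2 * Z + 1) * tu (L := L) (B + 2) η p.1 ^ 2 ≤ Real.exp (-(c * Real.exp (2 * p.1 / L.m))) ∧
      (Ks + 1) * tu (L := L) (B + 2) η p.1 ≤ Real.exp (-(c1 * Real.exp (2 * p.1 / L.m))) ∧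
      ∀ w : ℂ, |w.re| ≤ 1 → ‖TT (F p) w - L.X (1 / 2 + w) * TT χ w‖ ≤
        Ks * tu (L := L) (B + 2) η p.1 / (1 + ‖w‖) ^ 2 := by
    filter_upwards [hfst.eventually (eventually_ge_atTop (max (max A1 A2) (max 1 η))), hsnd] with p hp1 hp2
    have g1 : A1 ≤ p.1 := (le_max_left _ _).trans ((le_max_left _ _).trans hp1)
    have g2 : A2 ≤ p.1 := (le_max_right _ _).trans ((le_max_left _ _).trans hp1)
    have g3 : 1 ≤ p.1 := (le_max_left _ _).trans ((le_max_right _ _).trans hp1)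
    have g4 : η ≤ p.1 := (le_max_right _ _).trans ((le_max_right _ _).trans hp1)
    refine ⟨?_, ?_, hlim2 p.1 g2, fun w hw => ?_⟩
    · rw [hF]
      exact Fn_Hn (by linarith) _ _
    · have h9 := hlim1 p.1 g1
      have h10 := pow_le_pow_left₀ (by positivity) h9 2
      have h11 : Real.exp (-(c / 2 * Real.exp (2 * p.1 / L.m))) ^ 2 = Real.exp (-(c * Real.exp (2 * p.1 / L.m))) := by
        rw [← Real.exp_nat_mul]
        congr 1
        push_cast
        ring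
      rw [h11, mul_pow, Real.sq_sqrt (by positivity)] at h10
      exact h10
    · rw [hF]
      exact hg p.1 g3 g4 p.2 hp2 w hw
  -- the differences on the line
  have hXc : Continuous fun v : ℝ => L.X (1 / 2 + v * I) := (Xd (L := L)).continuous.comp (by fun_prop)
  have hχc : Continuous fun v : ℝ => TT χ (v * I) := (Pool.Agent.Y23.differentiable_TT hχF).continuous.comp (by fun_prop)
  have hpt : ∀ s : ℝ, ∀ p : ℝ × ℕ, 0 ≤ s → (∀ w : ℂ, |w.re| ≤ 1 → ‖TT (F p) w - L.X (1 / 2 + w) * TT χ w‖ ≤ s / (1 + ‖w‖) ^ 2) →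
      ∀ v : ℝ, ‖TT (F p) (v * I) - L.X (1 / 2 + v * I) * TT χ (v * I)‖ ^ 2 ≤ s ^ 2 * (1 + v ^ 2)⁻¹ := by
    intro s p hs hb v
    have h1 := hb (v * I) (by simp)
    have h2 : ‖(v : ℂ) * I‖ = |v| := by simp
    rw [h2] at h1
    have h3 := pow_le_pow_left₀ (norm_nonneg _) h1 2
    refine h3.trans ?_
    rw [div_pow, ← pow_mul, div_eq_mul_inv]
    refine mul_le_mul_of_nonneg_left ?_ (by positivity)
    refine inv_anti₀ (by positivity) ?_
    have hv0 := abs_nonneg v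
    have h4 : 1 + v ^ 2 ≤ (1 + |v|) ^ 2 := by
      rw [← sq_abs v]
      nlinarith
    exact h4.trans (pow_le_pow_right₀ (by linarith) (by norm_num))
  have hint : ∀ s : ℝ, Integrable fun v : ℝ => s ^ 2 * (1 + v ^ 2)⁻¹ := fun s => integrable_inv_one_add_sq.const_mul _
  refine ⟨F, ?_, ?_⟩
  · filter_upwards [hmain] with p hp
    obtain ⟨hHn, hp1, hp2, hp3⟩ := hp
    have hs0 : 0 ≤ Ks * tu (L := L) (B + 2) η p.1 := mul_nonneg hKs0 (tu_pos _ _ _).le
    refine ⟨hHn, ?_, ?_⟩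
    · have hz : ∀ w : ℂ, |w.re| ≤ 1 → L.X (1 / 2 + w) = 0 →
          ‖TT (F p) w‖ ≤ Ks * tu (L := L) (B + 2) η p.1 / (1 + ‖w‖) ^ 2 := by
        intro w hw1 hw2
        have h1 := hp3 w hw1
        rwa [hw2, zero_mul, sub_zero] at h1
      have hQ := QQ_small (D := Pool.Agent.Y23.G.zd) (f := F p) hs0 fun ρ => by
        have h2 := half_re (D := Pool.Agent.Y23.G.zd) ρ
        have h1 : L.X (1 / 2 + ((ρ : ℂ) - 1 / 2)) = 0 := by
          rw [add_sub_cancel]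
          exact ρ.2
        refine ⟨hz _ h2 h1, ?_⟩
        have h3 : L.X (1 / 2 + -conj ((ρ : ℂ) - 1 / 2)) = 0 := by
          rw [← rfZ_sub, add_sub_cancel]
          exact (rfZ ρ).2
        have h4 := hz (-conj ((ρ : ℂ) - 1 / 2)) (by
          rw [Complex.neg_re, Complex.conj_re, abs_neg]
          exact h2) h3
        rwa [neg_conj_norm] at h4
      refine hQ.trans (le_trans ?_ hp1)
      rw [← hZ, mul_pow]
      have h5 : 0 ≤ tu (L := L) (B + 2) η p.1 ^ 2 := by positivity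
      nlinarith
    · have hFF := hHn.1
      have hTc : Continuous fun v : ℝ => TT (F p) (v * I) :=
        (Pool.Agent.Y23.differentiable_TT hFF).continuous.comp (by fun_prop)
      refine (hint (Ks * tu (L := L) (B + 2) η p.1)).mono' (((hTc.sub (hXc.mul hχc)).norm.pow 2).aestronglyMeasurable)
        (Eventually.of_forall fun v => ?_)
      rw [Real.norm_of_nonneg (by positivity)]
      exact hpt _ p hs0 hp3 v
  · -- the limit
    have hE : Tendsto (fun p : ℝ × ℕ => Real.exp (-(c1 * Real.exp (2 * p.1 / L.m)))) (Lm L.m (cc (L := L) / κ + 1)) (𝓝 0) := by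
      have hm : (0 : ℝ) < L.m := by
        have := Pool.Agent.Y23.G.m_one (L := L)
        linarith
      have h2 : Tendsto (fun a : ℝ => Real.exp (2 * a / L.m)) atTop atTop := by
        refine Real.tendsto_exp_atTop.comp ?_
        exact (tendsto_id.const_mul_atTop (by norm_num : (0 : ℝ) < 2)).atTop_div_const hm
      have h3 := Real.tendsto_exp_neg_atTop_nhds_zero.comp ((h2.const_mul_atTop hc10).comp hfst)
      exact h3
    have hsq : Tendsto (fun p : ℝ × ℕ => Real.exp (-(c1 * Real.exp (2 * p.1 / L.m))) ^ 2 * ∫ v : ℝ, (1 + v ^ 2)⁻¹)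
        (Lm L.m (cc (L := L) / κ + 1)) (𝓝 0) := by
      have h1 := (hE.pow 2).mul_const (∫ v : ℝ, (1 + v ^ 2)⁻¹)
      simpa using h1
    refine squeeze_zero' ?_ ?_ hsq
    · filter_upwards with p
      exact integral_nonneg fun v => by positivity
    · filter_upwards [hmain] with p hp
      obtain ⟨hHn, hp1, hp2, hp3⟩ := hp
      have ht0 := tu_pos (L := L) (B + 2) η p.1
      have hs0 : 0 ≤ Ks * tu (L := L) (B + 2) η p.1 := mul_nonneg hKs0 ht0.le
      have h1 : ∫ v : ℝ, ‖TT (F p) (v * I) - L.X (1 / 2 + v * I) * TT χ (v * I)‖ ^ 2 ≤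
          ∫ v : ℝ, (Ks * tu (L := L) (B + 2) η p.1) ^ 2 * (1 + v ^ 2)⁻¹ :=
        integral_mono_of_nonneg (Eventually.of_forall fun v => by positivity) (hint _)
          (Eventually.of_forall (hpt _ p hs0 hp3))
      refine h1.trans ?_
      rw [integral_const_mul]
      refine mul_le_mul_of_nonneg_right ?_ (integral_nonneg fun v => by positivity)
      refine pow_le_pow_left₀ hs0 ?_ 2
      refine le_trans ?_ hp2
      nlinarith

end Pool.Agent.Q176.PG.TrX
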